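import Pool.Agent.H7.HDC.Fin

/-!
# MP_e37c09_lc: the local dichotomy

Let `δ` be extendible. Then (A) holds, or for each `l < δ` there are `δ₁` and `δ₀` with
`l < δ₁ < δ₀ < δ` such that for all ordinals `κ < lam`, where `lam` is regular in HOD and
`δ₁ < cof lam`, one of the following holds.

(Sprd) Each regular cardinal `M < δ₁` is the cofinality of some `τ` with `κ ≤ τ < lam` which is
regular in HOD.

(LocH) HOD is close to `V` between `κ` and `lam`:

(cof) each `τ` with `κ ≤ τ < lam` which is regular in HOD or a cardinal greater than `δ₁` has the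
cofinality of `lam`;

(fine) there is in HOD a `cof lam`-complete fine ultrafilter on `P_κ(lam)`;

(cov) covering: each subset of `lam` with fewer than `cof lam` elements is contained in an element
of HOD which is a subset of `lam` with fewer than `κ` elements in HOD;

(app) if `κ` is a cardinal greater than `δ₁`, and HOD maps `lam` onto the set of its bounded subsets
of `χ`, then HOD has the `κ`-approximation property for subsets of `χ`: if `A ⊆ χ` and `A ∩ B` is in
HOD for all `B ⊆ χ` in HOD with fewer than `κ` elements in HOD, then `A` is in HOD; and if moreover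
HOD maps `χ` onto its power set of `ρ` then `W ∩ HOD` is in HOD for every `κ`-complete ultrafilter
`W` on `ρ`;

(nrm) if `κ` is a regular cardinal greater than `δ₀` then `lam < κ⁺`, and for every map `f` of `κ`
onto `lam`: the set `f '' γ` is in HOD for all `γ` in a club subset of `κ` with `δ₁ ≤ cof γ`; and
every set `T` in HOD of subsets of `lam` with fewer than `κ` elements such that `f '' γ` is in `T`
for stationarily many `γ < κ` with `δ₁ ≤ cof γ < δ₀` belongs to a `κ`-complete normal fine
ultrafilter of HOD on `P_κ(lam)`. (So `κ` is `lam`-supercompact in HOD.)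

For a regular cardinal `κ > δ₀` and `lam = κ⁺` the second case is impossible, so each regular
cardinal `M < δ₁` is the cofinality of some `τ` with `κ < τ < κ⁺` which is regular in HOD; and the
second case holds for all `lam` which are less than the least `τ > κ` which is regular in HOD and
whose cofinality is at most `δ₁`.
-/

open Cardinal Order

universe u

theorem Pool.Agent.Results.MP_e37c09_lc.LocalDichotomy.result
    (δ : Ordinal.{u}) (hδ : HD.Extendible δ) : HD.CaseA δ ∨ ∀ l < δ, ∃ δ₁ δ₀,
      l < δ₁ ∧ δ₁ < δ₀ ∧ δ₀ < δ ∧ ∀ κ lam : Ordinal.{u}, HD.RegHOD lam → κ < lam →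
        δ₁ < lam.cof.ord → HD.Sprd δ₁ κ lam ∨ HD.LocH δ₁ δ₀ κ lam :=
  HD.All.m18 δ hδ
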