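import Pool.Agent.H7.HD.All3

/-!
# MP_e37c09_lc: the Mitchell order in HOD of almost all points

If `δ` is extendible then either every singular cardinal above `δ` is singular in HOD and its
successor is computed correctly by HOD, or there is a club `E` in `δ` such that for every regular
cardinal `K` almost all `α < K` have Mitchell order in HOD at least `sup (E ∩ (cof α + 1))`
provided that `cof α < sup (E ∩ K)`.
-/

universe u

theorem HD.Kept.orderOfPoints
    (δ : Ordinal.{u}) (hδ : HD.Extendible δ) :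
    HD.CaseA δ ∨ ∃ E : Set Ordinal.{u}, E ⊆ Set.Iio δ ∧ HD.Clb δ E ∧
      ∀ K : Cardinal.{u}, K.IsRegular → ∃ C : Set Ordinal.{u}, HD.Clb K.ord C ∧
        ∀ α ∈ C, α < K.ord → ∀ δ₀ ∈ E, ∀ δ₁ ∈ E, δ₀ ≤ α.cof.ord → α.cof.ord < δ₁ →
          δ₁ < K.ord → ∀ ξ < δ₀, ∃ U : ZFSet.{u}, HD.MGe α ξ U :=
  HD.All.m4E δ hδ
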