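import Pool.Agent.H7.HD.All3

/-!
# MP_e37c09_lc: stationary sets of measurable cardinals of HOD

If `δ` is extendible then either every singular cardinal above `δ` is singular in HOD and its
successor is computed correctly by HOD, or there is a club `E` in `δ` such that every regular
cardinal `K` above an element of `E` has a club subset `C` all of whose elements are inaccessible
in HOD and, in HOD, have stationary sets of measurable cardinals of large Mitchell order below
them.
-/

universe u

theorem HD.Kept.stationaryMeasurables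
    (δ : Ordinal.{u}) (hδ : HD.Extendible δ) :
    HD.CaseA δ ∨ ∃ E : Set Ordinal.{u}, E ⊆ Set.Iio δ ∧ HD.Clb δ E ∧
      ∀ K : Cardinal.{u}, K.IsRegular → (∃ δ₀ ∈ E, δ₀ < K.ord) →
        ∃ C : Set Ordinal.{u}, HD.Clb K.ord C ∧ ∀ α ∈ C, α < K.ord →
          HD.InacHOD α ∧ ∀ δ₀ ∈ E, δ₀ ≤ α → ∀ ξ < δ₀, ∀ d : ZFSet.{u}, HD.HOD d →
            HD.Clb α {b | b.toZFSet ∈ d} →
              ∃ β < α, β.toZFSet ∈ d ∧ ∃ U : ZFSet.{u}, HD.MGe β ξ U :=
  HD.All.m2E δ hδ
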