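import Pool.Agent.H7.HD.All8

/-!
# MP_e37c09_lc: the case of a strongly compact cardinal

Let `D` be strongly compact and let `K₀ > D` be a regular cardinal which is `ω`-strongly measurable
in HOD. Then every regular cardinal `K > K₀` is `ω`-strongly measurable in HOD, has in HOD normal
measures of Mitchell rank at least `ξ` for all `ξ < D`, and there is `τ₀` with `K < τ₀ < K⁺` which
is regular in HOD and of cofinality at most `K₀`, such that each `lam` with `K < lam < τ₀` which is
regular in HOD is of cofinality `K`, and `K` is `lam`-supercompact in HOD. If HOD has fewer than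
`cof τ₀` cardinals in `[K, τ₀)` then `cof τ₀ = ω`. Moreover, if `lam > K` is regular in HOD and of
cofinality greater than `K₀`, and some regular `N < D` is not the cofinality of an ordinal in
`[K, lam)` which is regular in HOD, then `lam < K⁺`, `cof lam = K` and `K` is `lam`-supercompact in
HOD.
-/

open Cardinal Order

universe u

theorem HD.Kept.stronglyCompact
    (D K₀ : Cardinal.{u}) (hD : HD.StrComp D) (hDK₀ : D < K₀) (hS : HD.OmSM K₀) :
    ∀ K : Cardinal.{u}, K.IsRegular → K₀ < K →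
      HD.OmSM K ∧ (∀ ξ < D.ord, ∃ U, HD.MGe K.ord ξ U) ∧
      (∃ τ₀, K.ord < τ₀ ∧ τ₀ < (succ K).ord ∧ HD.RegHOD τ₀ ∧ τ₀.cof ≤ K₀ ∧
        (HD.Few τ₀.cof.ord (HD.SH K.ord τ₀) → τ₀.cof = ℵ₀) ∧
        ∀ lam, K.ord < lam → lam < τ₀ → HD.RegHOD lam →
          lam.cof = K ∧ ∃ U, HD.HSup K.ord lam U) ∧
      ∀ (N : Cardinal.{u}) (lam : Ordinal.{u}), N.IsRegular → N < D → HD.RegHOD lam →
        K.ord < lam → K₀ < lam.cof → (∀ τ, K.ord ≤ τ → τ < lam → HD.RegHOD τ → τ.cof ≠ N) →
          lam < (succ K).ord ∧ lam.cof = K ∧ ∃ U, HD.HSup K.ord lam U :=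
  HD.All.m12 D K₀ hD hDK₀ hS
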