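import Pool.Agent.H7.HD.Fin4

/-!
# MP_e37c09_lc: supercompactness in HOD

If `δ` is extendible then either every singular cardinal above `δ` is singular in HOD and its
successor is computed correctly by HOD, or the following two statements hold.

(1) There are arbitrarily large `δ₀ < δ` such that every regular cardinal `K > δ₀` has, in HOD,
normal measures of Mitchell rank at least `ξ` for all `ξ < δ₀`, and there is `τ₀` with
`K < τ₀ < K⁺` which is regular in HOD and of cofinality at most `δ₀`, such that each `lam` with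
`K < lam < τ₀` which is regular in HOD is of cofinality `K`, and `K` is `lam`-supercompact in HOD.
If HOD has fewer than `cof τ₀` cardinals in `[K, τ₀)` then `cof τ₀ = ω`. So `K` is
`(K⁺)^HOD`-supercompact in HOD unless `(K⁺)^HOD` has cofinality `ω`.

(2) For every regular `M < δ` there is `δ₀ < δ` such that for all ordinals `κ < lam`, where `lam`
is regular in HOD and of cofinality greater than `δ₀`, and no ordinal in `[κ, lam)` which is regular
in HOD has cofinality `M`: there is in HOD a `cof lam`-complete fine ultrafilter on `P_κ(lam)`, `κ`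
and `lam` have the same cofinality if `κ` is regular in HOD or a cardinal greater than `δ₀`, and `κ`
is `lam`-supercompact in HOD if `κ` is a regular cardinal greater than `δ₀`.
-/

open Cardinal Order

universe u

theorem HD.Kept.supercompactness
    (δ : Ordinal.{u}) (hδ : HD.Extendible δ) : HD.CaseA δ ∨
    ((∀ l < δ, ∃ δ₀ < δ, l < δ₀ ∧ ∀ K : Cardinal.{u}, K.IsRegular → δ₀ < K.ord →
      (∀ ξ < δ₀, ∃ U, HD.MGe K.ord ξ U) ∧
      ∃ τ₀, K.ord < τ₀ ∧ τ₀ < (succ K).ord ∧ HD.RegHOD τ₀ ∧ τ₀.cof.ord ≤ δ₀ ∧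
        (HD.Few τ₀.cof.ord (HD.SH K.ord τ₀) → τ₀.cof = ℵ₀) ∧
        ∀ lam, K.ord < lam → lam < τ₀ → HD.RegHOD lam →
          lam.cof = K ∧ ∃ U, HD.HSup K.ord lam U) ∧
    ∀ M : Cardinal.{u}, M.IsRegular → M.ord < δ → ∃ δ₀ < δ, ∀ κ lam : Ordinal.{u},
      HD.RegHOD lam → κ < lam → δ₀ < lam.cof.ord →
      (∀ τ, κ ≤ τ → τ < lam → HD.RegHOD τ → τ.cof ≠ M) →
        (∃ U, HD.HFine κ lam lam.cof.ord U) ∧
        ((HD.RegHOD κ ∨ ∃ K : Cardinal.{u}, κ = K.ord ∧ δ₀ < κ) → κ.cof = lam.cof) ∧
        ∀ K : Cardinal.{u}, K.IsRegular → κ = K.ord → δ₀ < κ → ∃ U, HD.HSup κ lam U) :=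
  HD.All.m10 δ hδ
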